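import Mathlib

/-!
# Noncommutative polynomials in two variables and the substitution `c = a + b`, `d = a b + b a`
-/

set_option autoImplicit false

namespace Pool.Agent.H22.CDI

/-- `ℤ⟨X₀, X₁⟩` -/
abbrev NC : Type := MonoidAlgebra ℤ (FreeMonoid (Fin 2))

/-- the variables -/
noncomputable def X (i : Fin 2) : NC := MonoidAlgebra.single (FreeMonoid.of i) 1

/-- the substitution -/
noncomputable def cdMap : NC →ₐ[ℤ] NC :=
  MonoidAlgebra.lift ℤ NC (FreeMonoid (Fin 2))
    (FreeMonoid.lift ![X 0 + X 1, X 0 * X 1 + X 1 * X 0])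

theorem cdMap_X (i : Fin 2) : cdMap (X i) = ![X 0 + X 1, X 0 * X 1 + X 1 * X 0] i := by
  have h : cdMap (MonoidAlgebra.single (FreeMonoid.of i) 1) =
      (1 : ℤ) • FreeMonoid.lift ![X 0 + X 1, X 0 * X 1 + X 1 * X 0] (FreeMonoid.of i) :=
    MonoidAlgebra.lift_single _ _ _
  rw [one_smul, FreeMonoid.lift_eval_of] at h
  exact h

theorem cdMap_X0 : cdMap (X 0) = X 0 + X 1 := cdMap_X 0

theorem cdMap_X1 : cdMap (X 1) = X 0 * X 1 + X 1 * X 0 := cdMap_X 1

theorem torsion (r : NC) (h : r + r = 0) : r = 0 := by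
  ext w
  have h1 : (r + r).coeff w = 0 := by rw [h]; rfl
  rw [MonoidAlgebra.coeff_add, Finsupp.add_apply] at h1
  change r.coeff w = 0
  omega

/-! ### Left division -/

/-- left division by the variable `X i` -/
noncomputable def ldiv (i : Fin 2) : NC →+ NC where
  toFun f := MonoidAlgebra.ofCoeff (f.coeff.comapDomain (fun w => FreeMonoid.of i * w)
    ((mul_right_injective _).injOn))
  map_zero' := by
    ext w
    rfl
  map_add' f g := by
    ext w
    rfl

theorem ldiv_coeff (i : Fin 2) (f : NC) (w : FreeMonoid (Fin 2)) :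
    (ldiv i f).coeff w = f.coeff (FreeMonoid.of i * w) := rfl

theorem ldiv_one (i : Fin 2) : ldiv i 1 = 0 := by
  classical
  ext w
  rw [ldiv_coeff, MonoidAlgebra.one_def, MonoidAlgebra.coeff_single, Finsupp.single_apply]
  rw [if_neg]
  · rfl
  · intro h
    have := congrArg FreeMonoid.length h
    rw [FreeMonoid.length_mul, FreeMonoid.length_of, FreeMonoid.length_one] at this
    omega

theorem ldiv_self (i : Fin 2) (f : NC) : ldiv i (X i * f) = f := by
  ext w
  rw [ldiv_coeff, X, MonoidAlgebra.coeff_single_mul_mul, one_mul]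

theorem ldiv_ne {i j : Fin 2} (h : i ≠ j) (f : NC) : ldiv i (X j * f) = 0 := by
  ext w
  rw [ldiv_coeff, X, MonoidAlgebra.coeff_single_mul_of_forall_mul_ne]
  · rfl
  · intro d hd
    have h1 := congrArg FreeMonoid.toList hd
    rw [FreeMonoid.toList_of_mul, FreeMonoid.toList_of_mul] at h1
    exact h (List.cons.inj h1).1.symm

/-- the part divisible by `d` on the left -/
noncomputable def dpart (f : NC) : NC := ldiv 1 (ldiv 0 f - ldiv 1 f)

/-- the part divisible by `c` on the left -/
noncomputable def cpart (f : NC) : NC := ldiv 0 f - X 1 * dpart f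

theorem l0_c (g : NC) : ldiv 0 ((X 0 + X 1) * g) = g := by
  rw [add_mul, map_add, ldiv_self, ldiv_ne (by decide), add_zero]

theorem l1_c (g : NC) : ldiv 1 ((X 0 + X 1) * g) = g := by
  rw [add_mul, map_add, ldiv_self, ldiv_ne (by decide), zero_add]

theorem l0_d (g : NC) : ldiv 0 ((X 0 * X 1 + X 1 * X 0) * g) = X 1 * g := by
  rw [add_mul, map_add, mul_assoc, mul_assoc, ldiv_self, ldiv_ne (by decide), add_zero]

theorem l1_d (g : NC) : ldiv 1 ((X 0 * X 1 + X 1 * X 0) * g) = X 0 * g := by
  rw [add_mul, map_add, mul_assoc, mul_assoc, ldiv_self, ldiv_ne (by decide), zero_add]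

theorem dpart_c (g : NC) : dpart ((X 0 + X 1) * g) = 0 := by
  rw [dpart, l0_c, l1_c, sub_self, map_zero]

theorem dpart_d (g : NC) : dpart ((X 0 * X 1 + X 1 * X 0) * g) = g := by
  rw [dpart, l0_d, l1_d, map_sub, ldiv_self, ldiv_ne (by decide), sub_zero]

theorem cpart_c (g : NC) : cpart ((X 0 + X 1) * g) = g := by
  rw [cpart, dpart_c, l0_c, mul_zero, sub_zero]

theorem cpart_d (g : NC) : cpart ((X 0 * X 1 + X 1 * X 0) * g) = 0 := by
  rw [cpart, dpart_d, l0_d, sub_self]

theorem dpart_one : dpart 1 = 0 := by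
  rw [dpart, ldiv_one, ldiv_one, sub_self, map_zero]

theorem cpart_one : cpart 1 = 0 := by
  rw [cpart, dpart_one, ldiv_one, mul_zero, sub_zero]

/-- coefficient extraction -/
noncomputable def lam : List (Fin 2) → NC → ℤ
  | [], f => f.coeff 1
  | i :: w, f => if i = 0 then lam w (cpart f) else lam w (dpart f)

theorem dpart_add (f g : NC) : dpart (f + g) = dpart f + dpart g := by
  simp only [dpart, map_add, map_sub]
  abel

theorem cpart_add (f g : NC) : cpart (f + g) = cpart f + cpart g := by
  simp only [cpart, dpart_add, map_add, mul_add]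
  abel

theorem lam_add (w : List (Fin 2)) : ∀ f g : NC, lam w (f + g) = lam w f + lam w g := by
  induction w with
  | nil => intro f g; rfl
  | cons i w ih =>
    intro f g
    by_cases h : i = 0
    · simp only [lam, if_pos h]
      rw [cpart_add, ih]
    · simp only [lam, if_neg h]
      rw [dpart_add, ih]

/-- `lam` as an additive map -/
noncomputable def lamH (w : List (Fin 2)) : NC →+ ℤ where
  toFun := lam w
  map_zero' := by
    have := lam_add w 0 0
    rw [add_zero] at this
    omega
  map_add' := lam_add w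

theorem lam_zero (w : List (Fin 2)) : lam w 0 = 0 := (lamH w).map_zero

/-- the image of a word -/
noncomputable def img (w : List (Fin 2)) : NC :=
  (w.map ![X 0 + X 1, X 0 * X 1 + X 1 * X 0]).prod

theorem img_nil : img [] = 1 := rfl

theorem img_cons0 (w : List (Fin 2)) : img (0 :: w) = (X 0 + X 1) * img w := by
  simp [img]

theorem img_cons1 (w : List (Fin 2)) : img (1 :: w) = (X 0 * X 1 + X 1 * X 0) * img w := by
  simp [img]

theorem fin2 (i : Fin 2) : i = 0 ∨ i = 1 := by fin_cases i <;> simp

theorem coeff_one_X (i : Fin 2) (g : NC) : (X i * g).coeff 1 = 0 := by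
  rw [X, MonoidAlgebra.coeff_single_mul_of_forall_mul_ne]
  intro d hd
  have h1 := congrArg FreeMonoid.length hd
  rw [FreeMonoid.length_mul, FreeMonoid.length_of, FreeMonoid.length_one] at h1
  omega

open Classical in
theorem lam_img (w : List (Fin 2)) : ∀ w' : List (Fin 2), lam w (img w') = if w = w' then 1 else 0 := by
  induction w with
  | nil =>
    intro w'
    rcases w' with _ | ⟨i, w'⟩
    · rw [if_pos rfl, img_nil]
      exact MonoidAlgebra.coeff_one_one
    · rw [if_neg (by simp)]
      rcases fin2 i with rfl | rfl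
      · rw [img_cons0]
        change ((X 0 + X 1) * img w').coeff 1 = 0
        rw [add_mul, MonoidAlgebra.coeff_add, Finsupp.add_apply, coeff_one_X, coeff_one_X, add_zero]
      · rw [img_cons1]
        change ((X 0 * X 1 + X 1 * X 0) * img w').coeff 1 = 0
        rw [add_mul, mul_assoc, mul_assoc, MonoidAlgebra.coeff_add, Finsupp.add_apply, coeff_one_X,
          coeff_one_X, add_zero]
  | cons i w ih =>
    intro w'
    rcases w' with _ | ⟨j, w'⟩
    · rw [if_neg (by simp), img_nil]
      rcases fin2 i with rfl | rfl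
      · simp only [lam, if_true]
        rw [cpart_one, lam_zero]
      · simp only [lam, if_neg (by decide : ¬ (1 : Fin 2) = 0)]
        rw [dpart_one, lam_zero]
    · rcases fin2 i with rfl | rfl
      · simp only [lam, if_true]
        rcases fin2 j with rfl | rfl
        · rw [img_cons0, cpart_c, ih]
          simp
        · rw [img_cons1, cpart_d, lam_zero, if_neg (by simp)]
      · simp only [lam, if_neg (by decide : ¬ (1 : Fin 2) = 0)]
        rcases fin2 j with rfl | rfl
        · rw [img_cons0, dpart_c, lam_zero, if_neg (by simp)]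
        · rw [img_cons1, dpart_d, ih]
          simp

theorem cdMap_single (w : FreeMonoid (Fin 2)) (r : ℤ) :
    cdMap (MonoidAlgebra.single w r) = r • img (FreeMonoid.toList w) := by
  rw [cdMap, MonoidAlgebra.lift_single, FreeMonoid.lift_apply]
  rfl

/-- coefficients can be read off the image -/
theorem lam_cdMap (w : FreeMonoid (Fin 2)) (Φ : NC) :
    lam (FreeMonoid.toList w) (cdMap Φ) = Φ.coeff w := by
  classical
  induction Φ using MonoidAlgebra.induction_linear with
  | zero => rw [map_zero, lam_zero]; rfl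
  | add f g hf hg =>
    rw [map_add, lam_add, hf, hg, MonoidAlgebra.coeff_add, Finsupp.add_apply]
  | single m r =>
    rw [cdMap_single, MonoidAlgebra.coeff_single, Finsupp.single_apply]
    have h1 : lam (FreeMonoid.toList w) (r • img (FreeMonoid.toList m)) =
        r • lam (FreeMonoid.toList w) (img (FreeMonoid.toList m)) := (lamH _).map_zsmul _ _
    rw [h1, lam_img]
    by_cases h : m = w
    · subst h
      simp
    · rw [if_neg h, if_neg (fun h' => h (FreeMonoid.toList.injective h').symm), smul_zero]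

theorem cdMap_injective : Function.Injective cdMap := by
  intro Φ Φ' h
  ext w
  rw [← lam_cdMap, ← lam_cdMap, h]

/-! ### Nonnegative elements -/

/-- the images of the polynomials with nonnegative coefficients -/
def posCone : AddSubmonoid NC where
  carrier := {p | ∃ Φ : NC, (∀ w, 0 ≤ Φ.coeff w) ∧ cdMap Φ = p}
  zero_mem' := ⟨0, fun w => le_refl _, map_zero _⟩
  add_mem' := by
    rintro _ _ ⟨Φ, h, rfl⟩ ⟨Φ', h', rfl⟩
    refine ⟨Φ + Φ', fun w => ?_, map_add _ _ _⟩
    rw [MonoidAlgebra.coeff_add, Finsupp.add_apply]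
    exact add_nonneg (h w) (h' w)

theorem mem_posCone {p : NC} : p ∈ posCone ↔ ∃ Φ : NC, (∀ w, 0 ≤ Φ.coeff w) ∧ cdMap Φ = p := Iff.rfl

theorem one_mem_posCone : (1 : NC) ∈ posCone := by
  classical
  refine ⟨1, fun w => ?_, map_one _⟩
  rw [MonoidAlgebra.one_def, MonoidAlgebra.coeff_single, Finsupp.single_apply]
  split_ifs
  · exact zero_le_one
  · exact le_refl _

theorem mul_X_nonneg {Φ : NC} (h : ∀ w, 0 ≤ Φ.coeff w) (i : Fin 2) (w : FreeMonoid (Fin 2)) :
    0 ≤ (Φ * X i).coeff w := by
  by_cases hw : ∃ d, d * FreeMonoid.of i = w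
  · obtain ⟨d, rfl⟩ := hw
    rw [X, MonoidAlgebra.coeff_mul_single_mul, mul_one]
    exact h d
  · rw [X, MonoidAlgebra.coeff_mul_single_of_forall_mul_ne]
    intro d hd
    exact hw ⟨d, hd⟩

theorem mul_c_mem {p : NC} (h : p ∈ posCone) : p * (X 0 + X 1) ∈ posCone := by
  obtain ⟨Φ, h1, rfl⟩ := h
  exact ⟨Φ * X 0, mul_X_nonneg h1 0, by rw [map_mul, cdMap_X0]⟩

theorem mul_d_mem {p : NC} (h : p ∈ posCone) : p * (X 0 * X 1 + X 1 * X 0) ∈ posCone := by
  obtain ⟨Φ, h1, rfl⟩ := h
  exact ⟨Φ * X 1, mul_X_nonneg h1 1, by rw [map_mul, cdMap_X1]⟩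

end Pool.Agent.H22.CDI
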