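import Pool.Agent.H80.CD.DIHG

/-!
# The canonical generators of a dihedral reflection subgroup
-/

set_option autoImplicit false

open Finset

namespace Pool.Agent.H22.CDI

open Pool.Agent.H52.CD Pool.Agent.H52.CD.DihG

variable {B W : Type} [Group W] {M : CoxeterMatrix B} {cs : CoxeterSystem M W} {G : Geo cs}

theorem gg_nonneg {v : B →₀ ℝ} (h : ∀ j, 0 ≤ v j) : 0 ≤ gg v := by
  by_cases h0 : v = 0
  · rw [h0, map_zero]
  · exact (gg_pos h h0).le

/-- the root of a reflection in the subgroup generated by two reflections is in their plane -/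
theorem root_plane (Rt : RootFn G) {α β : W} (hα : cs.IsReflection α) (hβ : cs.IsReflection β)
    {t : W} (ht : t ∈ Subgroup.closure ({α, β} : Set W)) (htr : cs.IsReflection t) :
    InP (rr Rt α) (rr Rt β) (rr Rt t) := by
  have hP : ∀ w ∈ Subgroup.closure ({α, β} : Set W), ∀ v : VV B, ∃ z, InP (rr Rt α) (rr Rt β) z ∧
      G.ρ w v - v = iv z := by
    intro w hw
    induction hw using Subgroup.closure_induction with
    | mem x hx =>
      intro v
      rcases hx with hx | hx
      · subst hx
        refine ⟨-(co M (rr Rt x) v) • rr Rt x, ⟨-(co M (rr Rt x) v), 0, ?_⟩, ?_⟩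
        · module
        · rw [rr_act Rt hα, iv_smul]
          module
      · rw [Set.mem_singleton_iff] at hx
        subst hx
        refine ⟨-(co M (rr Rt x) v) • rr Rt x, ⟨0, -(co M (rr Rt x) v), ?_⟩, ?_⟩
        · module
        · rw [rr_act Rt hβ, iv_smul]
          module
    | one =>
      intro v
      refine ⟨0, ⟨0, 0, by simp⟩, ?_⟩
      rw [map_one, Module.End.one_apply, sub_self]
      rfl
    | mul x y _ _ ih1 ih2 =>
      intro v
      obtain ⟨z1, ⟨x1, x2, e1⟩, h1⟩ := ih1 (G.ρ y v)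
      obtain ⟨z2, ⟨y1, y2, e2⟩, h2⟩ := ih2 v
      refine ⟨z1 + z2, ⟨x1 + y1, x2 + y2, by rw [e1, e2]; module⟩, ?_⟩
      rw [iv_add, ← h1, ← h2, map_mul]
      change G.ρ x (G.ρ y v) - v = _
      abel
    | inv x _ ih =>
      intro v
      obtain ⟨z1, ⟨x1, x2, e1⟩, h1⟩ := ih (G.ρ x⁻¹ v)
      refine ⟨-z1, ⟨-x1, -x2, by rw [e1]; module⟩, ?_⟩
      rw [iv_neg, ← h1]
      have e : G.ρ x (G.ρ x⁻¹ v) = v := by
        have : (G.ρ x * G.ρ x⁻¹) v = v := by rw [← map_mul, mul_inv_cancel, map_one]; rfl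
        exact this
      rw [e]
      abel
  obtain ⟨z, ⟨x1, x2, e1⟩, h1⟩ := hP t ht (iv (rr Rt t))
  rw [rr_act Rt htr, rr_self Rt htr, ← iv_smul, ← iv_sub, ← iv_sub] at h1
  have h2 := iv_inj h1
  refine ⟨-(1/2) * x1, -(1/2) * x2, ?_⟩
  have h3 : rr Rt t = (-(1/2) : ℝ) • (rr Rt t - (2 : ℝ) • rr Rt t - rr Rt t) := by module
  rw [h3, h2, e1]
  module

/-- a reflection `z` in Dyer's set maps the positive roots of the other reflections to positive roots -/
theorem pos_act (hSIGN : SIGN) (Rt : RootFn G) {z t : W} (hz : cs.IsReflection z)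
    (ht : cs.IsReflection t) (h : ¬ cs.length (t * z) < cs.length z) :
    ∃ β' : B →₀ ℝ, (∀ j, 0 ≤ β' j) ∧ G.ρ z (iv (rr Rt t)) = iv β' := by
  have h1 : (t * z)⁻¹ = z * t := by rw [mul_inv_rev, hz.inv, ht.inv]
  have h2 : cs.length (z * t) = cs.length (t * z) := by rw [← h1, cs.length_inv]
  rw [← h2] at h
  have h3 : cs.length z < cs.length (z * t) :=
    lt_of_le_of_ne (not_lt.1 h) (ht.length_mul_left_ne z).symm
  rw [rr_eq Rt ht]
  exact (hSIGN B W M cs G Rt z ⟨t, ht⟩).1 h3

theorem no_comb (hSIGN : SIGN) (Rt : RootFn G) {z s t : W} (hz : cs.IsReflection z)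
    (hs : cs.IsReflection s) (ht : cs.IsReflection t) (h : ¬ cs.length (s * z) < cs.length z)
    (h' : ¬ cs.length (t * z) < cs.length z) {p q : ℝ} (hp : 0 ≤ p) (hq : 0 ≤ q)
    (e : rr Rt z = p • rr Rt s + q • rr Rt t) : False := by
  obtain ⟨β1, h1, e1⟩ := pos_act hSIGN Rt hz hs h
  obtain ⟨β2, h2, e2⟩ := pos_act hSIGN Rt hz ht h'
  have h3 : G.ρ z (iv (rr Rt z)) = p • iv β1 + q • iv β2 := by
    conv_lhs => rw [e]
    rw [iv_add, iv_smul, iv_smul, map_add, map_smul, map_smul, e1, e2]
  rw [rr_act Rt hz, rr_self Rt hz, ← iv_smul, ← iv_smul, ← iv_smul, ← iv_sub, ← iv_add] at h3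
  have h4 := congrArg gg (iv_inj h3)
  simp only [map_sub, map_smul, map_add, smul_eq_mul] at h4
  have h5 := rr_pos Rt hz
  have h6 := mul_nonneg hp (gg_nonneg h1)
  have h7 := mul_nonneg hq (gg_nonneg h2)
  linarith

/-- Dyer's set of the subgroup generated by two of its elements consists of these two elements -/
theorem canon_pair (hSIGN : SIGN) (Rt : RootFn G) {α β c : W} (hα : cs.IsReflection α)
    (hβ : cs.IsReflection β) (hne : α ≠ β)
    (h1 : ∀ t ∈ Subgroup.closure ({α, β} : Set W), cs.IsReflection t →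
      cs.length (t * α) < cs.length α → t = α)
    (h2 : ∀ t ∈ Subgroup.closure ({α, β} : Set W), cs.IsReflection t →
      cs.length (t * β) < cs.length β → t = β)
    (hc : c ∈ Subgroup.closure ({α, β} : Set W)) (hcr : cs.IsReflection c)
    (h3 : ∀ t ∈ Subgroup.closure ({α, β} : Set W), cs.IsReflection t →
      cs.length (t * c) < cs.length c → t = c) : c = α ∨ c = β := by
  by_contra hcon
  rw [not_or] at hcon
  have mα : α ∈ Subgroup.closure ({α, β} : Set W) := Subgroup.subset_closure (Or.inl rfl)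
  have mβ : β ∈ Subgroup.closure ({α, β} : Set W) := Subgroup.subset_closure (Or.inr rfl)
  obtain ⟨x, y, e⟩ := root_plane Rt hα hβ hc hcr
  have pa := rr_pos Rt hα
  have pb := rr_pos Rt hβ
  have pc := rr_pos Rt hcr
  have nac : ¬ cs.length (α * c) < cs.length c := fun h => hcon.1 (h3 α mα hα h).symm
  have nbc : ¬ cs.length (β * c) < cs.length c := fun h => hcon.2 (h3 β mβ hβ h).symm
  have nca : ¬ cs.length (c * α) < cs.length α := fun h => hcon.1 (h1 c hc hcr h)
  have nba : ¬ cs.length (β * α) < cs.length α := fun h => hne (h1 β mβ hβ h).symm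
  have ncb : ¬ cs.length (c * β) < cs.length β := fun h => hcon.2 (h2 c hc hcr h)
  have nab : ¬ cs.length (α * β) < cs.length β := fun h => hne (h2 α mα hα h)
  rcases le_or_gt 0 x with hx | hx
  · rcases le_or_gt 0 y with hy | hy
    · exact no_comb hSIGN Rt hcr hα hβ nac nbc hx hy e
    · rcases hx.eq_or_lt with hx0 | hx0
      · have h4 := congrArg gg e
        simp only [map_smul, map_add, smul_eq_mul] at h4
        rw [← hx0, zero_mul, zero_add] at h4
        have := mul_neg_of_neg_of_pos hy pb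
        linarith
      · refine no_comb hSIGN Rt hα hcr hβ nca nba (p := 1 / x) (q := -y / x) (by positivity)
          (div_nonneg (by linarith) hx0.le) ?_
        rw [e, smul_add, smul_smul, smul_smul]
        have e1 : 1 / x * x = 1 := by field_simp
        have e2 : 1 / x * y = -(-y / x) := by ring
        rw [e1, e2]
        module
  · rcases le_or_gt y 0 with hy | hy
    · have h4 := congrArg gg e
      simp only [map_smul, map_add, smul_eq_mul] at h4
      have := mul_neg_of_neg_of_pos hx pa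
      have := mul_nonpos_of_nonpos_of_nonneg hy pb.le
      linarith
    · refine no_comb hSIGN Rt hβ hcr hα ncb nab (p := 1 / y) (q := -x / y) (by positivity)
        (div_nonneg (by linarith) hy.le) ?_
      rw [e, smul_add, smul_smul, smul_smul]
      have e1 : 1 / y * y = 1 := by field_simp
      have e2 : 1 / y * x = -(-x / y) := by ring
      rw [e1, e2]
      module

end Pool.Agent.H22.CDI
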