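import Pool.Agent.H22.CDI.Alg
import Pool.Agent.H52.CD.Defs

/-!
# Sums over the directed paths of the Bruhat graph
-/

set_option autoImplicit false

open Finset

namespace Pool.Agent.H22.CDI

variable {B W : Type} [Group W] {M : CoxeterMatrix B} (cs : CoxeterSystem M W)

/-- `l` is the list of labels of a directed path from `u` to `v` in the Bruhat graph -/
def IsPath : W → List {t : W // cs.IsReflection t} → W → Prop
  | u, [], v => u = v
  | u, t :: l, v => cs.length u < cs.length (u * t.1) ∧ IsPath (u * t.1) l v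

open Classical in
/-- the ascent-descent word of a list of labels -/
noncomputable def word (lt : {t : W // cs.IsReflection t} → {t : W // cs.IsReflection t} → Prop) :
    List {t : W // cs.IsReflection t} → NC
  | [] => 1
  | [_] => 1
  | s :: t :: l => (if lt s t then X 0 else X 1) * word lt (t :: l)

variable {cs}

theorem mul_refl (v : W) (t : {t : W // cs.IsReflection t}) : v * t.1 * t.1 = v := by
  rw [mul_assoc, t.2.mul_self, mul_one]

theorem isPath_concat (u v : W) (l : List {t : W // cs.IsReflection t})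
    (t : {t : W // cs.IsReflection t}) :
    IsPath cs u (l ++ [t]) v ↔ IsPath cs u l (v * t.1) ∧ cs.length (v * t.1) < cs.length v := by
  induction l generalizing u with
  | nil =>
    change (cs.length u < cs.length (u * t.1) ∧ u * t.1 = v) ↔ (u = v * t.1 ∧ _)
    constructor
    · rintro ⟨h1, h2⟩
      subst h2
      rw [mul_refl]
      exact ⟨rfl, h1⟩
    · rintro ⟨h1, h2⟩
      subst h1
      rw [mul_refl]
      exact ⟨h2, rfl⟩
  | cons s l ih =>
    change (cs.length u < cs.length (u * s.1) ∧ IsPath cs (u * s.1) (l ++ [t]) v) ↔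
      ((cs.length u < cs.length (u * s.1) ∧ IsPath cs (u * s.1) l (v * t.1)) ∧ _)
    rw [ih, and_assoc]

variable (lt : {t : W // cs.IsReflection t} → {t : W // cs.IsReflection t} → Prop)

open Classical in
theorem word_concat (s t : {t : W // cs.IsReflection t}) (l : List {t : W // cs.IsReflection t}) :
    word cs lt (l ++ [s] ++ [t]) = word cs lt (l ++ [s]) * (if lt s t then X 0 else X 1) := by
  induction l with
  | nil =>
    change (if lt s t then X 0 else X 1) * 1 = 1 * _
    rw [mul_one, one_mul]
  | cons r l ih =>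
    rcases l with _ | ⟨r', l⟩
    · change (if lt r s then X 0 else X 1) * ((if lt s t then X 0 else X 1) * 1) =
        ((if lt r s then X 0 else X 1) * 1) * _
      rw [mul_one, mul_one]
    · change (if lt r r' then X 0 else X 1) * word cs lt ((r' :: l) ++ [s] ++ [t]) =
        ((if lt r r' then X 0 else X 1) * word cs lt ((r' :: l) ++ [s])) * _
      rw [ih, mul_assoc]

open Classical in
theorem path_sum (Y : Pool.Agent.H52.CD.Sys W {t : W // cs.IsReflection t})
    (hact : ∀ w t, Y.act w t = w * t.1)
    (hN : ∀ w t, t ∈ Y.N w ↔ cs.length (w * t.1) < cs.length w) (u : W) :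
    ∀ (n : ℕ) (v : W), cs.length v = n → ∀ F : Set {t : W // cs.IsReflection t},
      ∃ A : Finset (List {t : W // cs.IsReflection t}),
        (∀ l, l ∈ A ↔ (∃ l' t, l = l' ++ [t] ∧ t ∈ F) ∧ IsPath cs u l v) ∧
        ∑ l ∈ A, word cs lt l = Pool.Agent.H52.CD.Ab Y lt (X 0) (X 1) u F v := by
  intro n
  induction n using Nat.strong_induction_on with
  | _ n ih =>
  intro v hv F
  have hih : ∀ t : {t : W // cs.IsReflection t}, t ∈ Y.N v →
      ∀ F : Set {t : W // cs.IsReflection t}, ∃ A : Finset (List {t : W // cs.IsReflection t}),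
        (∀ l, l ∈ A ↔ (∃ l' t, l = l' ++ [t] ∧ t ∈ F) ∧ IsPath cs u l (v * t.1)) ∧
        ∑ l ∈ A, word cs lt l = Pool.Agent.H52.CD.Ab Y lt (X 0) (X 1) u F (v * t.1) := by
    intro t ht F
    exact ih _ (by rw [← hv]; exact (hN v t).1 ht) _ rfl F
  choose! A hA1 hA2 using hih
  let S : {t : W // cs.IsReflection t} → Finset (List {t : W // cs.IsReflection t}) := fun t =>
    (if v * t.1 = u then {[]} else ∅) ∪ (A t {s | lt s t} ∪ A t {s | ¬ lt s t})
  let N : Finset {t : W // cs.IsReflection t} := (Y.N v).filter (fun t => t ∈ F)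
  have hS : ∀ t ∈ Y.N v, ∀ l, l ∈ S t ↔ IsPath cs u l (v * t.1) := by
    intro t ht l
    rw [Finset.mem_union, Finset.mem_union, hA1 t ht, hA1 t ht]
    constructor
    · rintro (h | ⟨_, h⟩ | ⟨_, h⟩)
      · by_cases h1 : v * t.1 = u
        · rw [if_pos h1, Finset.mem_singleton] at h
          subst h
          exact h1.symm
        · rw [if_neg h1] at h
          exact absurd h (Finset.notMem_empty _)
      · exact h
      · exact h
    · intro h
      rcases List.eq_nil_or_concat l with rfl | ⟨l', s, rfl⟩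
      · left
        have h1 : v * t.1 = u := by
          have : u = v * t.1 := h
          exact this.symm
        rw [if_pos h1]
        exact Finset.mem_singleton_self _
      · right
        by_cases h1 : lt s t
        · exact Or.inl ⟨⟨l', s, List.concat_eq_append, h1⟩, h⟩
        · exact Or.inr ⟨⟨l', s, List.concat_eq_append, h1⟩, h⟩
  refine ⟨(N.sigma S).image (fun p => p.2 ++ [p.1]), ?_, ?_⟩
  · intro l
    rw [Finset.mem_image]
    constructor
    · rintro ⟨⟨t, l'⟩, h, rfl⟩
      rw [Finset.mem_sigma] at h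
      obtain ⟨h1, h2⟩ := h
      have h3 := Finset.mem_filter.1 h1
      refine ⟨⟨l', t, rfl, h3.2⟩, ?_⟩
      exact (isPath_concat u v l' t).2 ⟨(hS t h3.1 l').1 h2, (hN v t).1 h3.1⟩
    · rintro ⟨⟨l', t, rfl, ht⟩, h⟩
      have h1 := (isPath_concat u v l' t).1 h
      have h2 := (hN v t).2 h1.2
      exact ⟨⟨t, l'⟩, Finset.mem_sigma.2 ⟨Finset.mem_filter.2 ⟨h2, ht⟩, (hS t h2 l').2 h1.1⟩, rfl⟩
  · rw [Finset.sum_image, Finset.sum_sigma, Pool.Agent.H52.CD.Ab_eq]
    · refine Finset.sum_congr rfl ?_
      intro t ht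
      have ht1 : t ∈ Y.N v := (Finset.mem_filter.1 ht).1
      have hd1 : Disjoint (A t {s | lt s t}) (A t {s | ¬ lt s t}) := by
        rw [Finset.disjoint_left]
        intro l h1 h2
        obtain ⟨⟨l1, s1, e1, h3⟩, _⟩ := (hA1 t ht1 _ l).1 h1
        obtain ⟨⟨l2, s2, e2, h4⟩, _⟩ := (hA1 t ht1 _ l).1 h2
        rw [e1] at e2
        have h5 : s1 = s2 := by
          have := congrArg List.getLast? e2
          simpa using this
        subst h5
        exact h4 h3
      have hd2 : Disjoint (if v * t.1 = u then ({[]} : Finset (List {t : W // cs.IsReflection t})) else ∅)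
          (A t {s | lt s t} ∪ A t {s | ¬ lt s t}) := by
        rw [Finset.disjoint_left]
        intro l h1 h2
        have h3 : l = [] := by
          by_cases h : v * t.1 = u
          · rw [if_pos h, Finset.mem_singleton] at h1
            exact h1
          · rw [if_neg h] at h1
            exact absurd h1 (Finset.notMem_empty _)
        subst h3
        rcases Finset.mem_union.1 h2 with h4 | h4
        · obtain ⟨⟨l1, s1, e1, _⟩, _⟩ := (hA1 t ht1 _ _).1 h4
          simp at e1
        · obtain ⟨⟨l1, s1, e1, _⟩, _⟩ := (hA1 t ht1 _ _).1 h4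
          simp at e1
      change ∑ l ∈ S t, word cs lt (l ++ [t]) = _
      rw [Finset.sum_union hd2, Finset.sum_union hd1, hact, ← hA2 t ht1, ← hA2 t ht1, Finset.sum_mul,
        Finset.sum_mul, add_assoc]
      have e1 : ∑ l ∈ A t {s | lt s t}, word cs lt (l ++ [t]) =
          ∑ l ∈ A t {s | lt s t}, word cs lt l * X 0 := by
        refine Finset.sum_congr rfl ?_
        intro l hl
        obtain ⟨⟨l1, s1, e1, h3⟩, _⟩ := (hA1 t ht1 _ l).1 hl
        rw [e1, word_concat, if_pos (show lt s1 t from h3)]
      have e2 : ∑ l ∈ A t {s | ¬ lt s t}, word cs lt (l ++ [t]) =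
          ∑ l ∈ A t {s | ¬ lt s t}, word cs lt l * X 1 := by
        refine Finset.sum_congr rfl ?_
        intro l hl
        obtain ⟨⟨l1, s1, e1, h3⟩, _⟩ := (hA1 t ht1 _ l).1 hl
        rw [e1, word_concat, if_neg (show ¬ lt s1 t from h3)]
      rw [e1, e2]
      congr 1
      by_cases h : v * t.1 = u
      · rw [if_pos h, if_pos h, Finset.sum_singleton]
        rfl
      · rw [if_neg h, if_neg h, Finset.sum_empty]
    · rintro ⟨t, l⟩ _ ⟨t', l'⟩ _ h
      have h1 : l ++ [t] = l' ++ [t'] := h
      have h2 : t = t' := by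
        have := congrArg List.getLast? h1
        simpa using this
      subst h2
      have h3 : l = l' := List.append_cancel_right h1
      subst h3
      rfl

/-- the sum over all paths -/
theorem finsum_path (Y : Pool.Agent.H52.CD.Sys W {t : W // cs.IsReflection t})
    (hact : ∀ w t, Y.act w t = w * t.1)
    (hN : ∀ w t, t ∈ Y.N w ↔ cs.length (w * t.1) < cs.length w) (u v : W) :
    {l : List {t : W // cs.IsReflection t} | l ≠ [] ∧ IsPath cs u l v}.Finite ∧
    ∑ᶠ l ∈ {l : List {t : W // cs.IsReflection t} | l ≠ [] ∧ IsPath cs u l v}, word cs lt l =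
      Pool.Agent.H52.CD.Ab Y lt (X 0) (X 1) u Set.univ v := by
  obtain ⟨A, h1, h2⟩ := path_sum lt Y hact hN u _ v rfl Set.univ
  have h3 : {l : List {t : W // cs.IsReflection t} | l ≠ [] ∧ IsPath cs u l v} = ↑A := by
    ext l
    rw [Finset.mem_coe, h1]
    constructor
    · rintro ⟨h, h'⟩
      rcases List.eq_nil_or_concat l with h4 | ⟨l', s, h4⟩
      · exact absurd h4 h
      · exact ⟨⟨l', s, h4.trans List.concat_eq_append, Set.mem_univ _⟩, h'⟩
    · rintro ⟨⟨l', s, h4, _⟩, h'⟩
      exact ⟨by rw [h4]; simp, h'⟩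
  rw [h3, finsum_mem_coe_finset]
  exact ⟨A.finite_toSet, h2⟩

end Pool.Agent.H22.CDI
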